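import Mathlib

/-!
# The pairing on `I / J` for one-dimensional almost complete intersections (MP_1ce8ed_ag)

`P` is a regular local ring of dimension `n + 1`, `J = (f_0, …, f_n)`, `dim P / J = 1`, `I` is the saturation of `J`,
`I` is radical.

## Paper proof

Choose generators `g_0, …, g_n` of `J` and `s ∈ 𝔪` such that `J' = (g_0, …, g_(n-1))` is a complete intersection which agrees
with `I` at the minimal primes of `I`, `(J', s)` is `𝔪`-primary, `s I ⊆ J` (S_GEN; uses that localisations of regular
local rings are regular, S_SER). For `u ∈ I²` write `s u = g_n i + j`, `i ∈ I`, `j ∈ J'`; `Φ u = i` modulo `(J', s)`. `Φ` is well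
defined on `I² / I J`, since `I ∩ (J' : g_n) = J'`, and injective, since `I² ∩ J' = I J'` (`J'/J'²` is free over `P/J'`).  So
`I² / I J` embeds into the Gorenstein ring `P / (J', s)`, and its socle is simple. The duality pairing on `I / J` is
`B(a, b) = Res (b t)`, `s a = t g_n` modulo `J'`, and this is `Res (Φ (a b))`.
-/

set_option autoImplicit false

namespace Pool.Agent.L7h93.GP

open IsLocalRing

/-- the saturation of an ideal with respect to the maximal ideal -/
def sat {P : Type} [CommRing P] [IsLocalRing P] (J : Ideal P) : Ideal P where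
  carrier := {a | ∃ k : ℕ, ∀ r ∈ maximalIdeal P ^ k, r * a ∈ J}
  zero_mem' := ⟨0, fun r _ => by rw [mul_zero]; exact J.zero_mem⟩
  add_mem' := by
    rintro a b ⟨k, hk⟩ ⟨l, hl⟩
    refine ⟨k + l, fun r hr => ?_⟩
    rw [mul_add]
    exact J.add_mem (hk r (Ideal.pow_le_pow_right (by omega) hr)) (hl r (Ideal.pow_le_pow_right (by omega) hr))
  smul_mem' := by
    rintro c a ⟨k, hk⟩
    refine ⟨k, fun r hr => ?_⟩
    rw [smul_eq_mul, mul_left_comm]
    exact J.mul_mem_left _ (hk r hr)

/-- the ideal generated by all members of the sequence -/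
def JJ {P : Type} [CommRing P] {n : ℕ} (f : Fin (n + 1) → P) : Ideal P := Ideal.span (Set.range f)

/-- the ideal generated by all members of the sequence but the last one -/
def JC {P : Type} [CommRing P] {n : ℕ} (g : Fin (n + 1) → P) : Ideal P := Ideal.span (Set.range fun i : Fin n => g i.castSucc)

/-- [S_SER] Serre: localisations of regular local rings are regular

Sketch (module theoretic, with the inductive predicate `FF M k` : `M` finite and (`M` free, or there is a surjection of a finite
free module onto `M` whose kernel is `FF · (k - 1)`); this avoids `Ext`; Mathlib's `HasProjectiveDimensionLT` also works).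
(A) `P` regular local of dimension `d` ⟹ every finite module has a finite free resolution: induction on `d`; the first syzygy
`N` of `M` is a submodule of a free module, so a parameter `x ∈ 𝔪 ∖ 𝔪²` (`Pool.Agent.H379R3` Reg.lean: `isDomain`,
`regular_quotient`) is regular on `N`; `N/xN` has a finite free resolution over `P/x`, and if `N/xN` is free over `P/x` and `x`
regular on `N`, then `N` is free (Nakayama). (B) localise: the residue field of `P_p` has a finite free resolution over `P_p`.
(C) Serre: `R` noetherian local, the residue field `k` has a finite free resolution ⟹ `R` regular: induction on the minimal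
number of generators of `𝔪`. If `𝔪 ≠ 0`, then `depth R > 0` (a socle element kills the last map of the minimal resolution), so
there is a regular `x ∈ 𝔪 ∖ 𝔪²` (prime avoidance); `𝔪/x𝔪` has a finite free resolution over `R/x`, `𝔪/(x)` is a direct summand
of `𝔪/x𝔪` (so work with finite projective dimension), so does `𝔪/(x)`, hence `k` over `R/x`, and `R/x` regular ⟹ `R` regular. -/
def S_SER : Prop := ∀ (P : Type) [CommRing P] [IsRegularLocalRing P], IsRegularRing P

/-- [S_CM] a system of parameters of a regular local ring is a regular sequence (in this order; apply it to permutations)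

Sketch. Prove S_CM and S_SOC together, by induction on `n`, for every noetherian local ring `R` of dimension `n` with one
`𝔪`-primary regular sequence `x : Fin n → R` (for S_SOC: with simple socle of `R/(x)`): then every `𝔪`-primary `q : Fin n → R`
is a regular sequence (and `R/(q)` has simple socle). Exchange lemma: `(c, a)` regular sequence, `(c, b)` `𝔪`-primary ⟹ `(c, b)`
is a regular sequence: if `b y ∈ (c)`, then `a^k ∈ (c, b)`, so `a^k y ∈ (c)`, so `y ∈ (c)`. Choose `z ∈ 𝔪` outside the minimal
primes of `(x_1, …)` and of `(q_1, …)` (prime avoidance; these primes are not `𝔪` because `dim R = n`); `(x_0, x_1, …)` ~>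
`(z, x_1, …)` by the exchange lemma; in `R/z` (dimension `n - 1`, Mathlib) the induction hypothesis gives `(q_1, …)`; so `(z, q_1, …)`
is a regular sequence, exchange `z` for `q_0` (permutability of regular sequences in noetherian local rings is in Mathlib).
Regular local rings have a regular sequence generating `𝔪`: library `Pool.Agent.H379R3` Reg.lean (`isDomain`,
`regular_quotient`, `exists_param_of_mem`). -/
def S_CM : Prop := ∀ (P : Type) [CommRing P] [IsRegularLocalRing P] (n : ℕ), ringKrullDim P = n → ∀ q : Fin n → P,
  (∀ i, q i ∈ maximalIdeal P) → (∃ k : ℕ, maximalIdeal P ^ k ≤ Ideal.span (Set.range q)) →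
  ∀ (i : Fin n) (a : P), q i * a ∈ Ideal.span (q '' {j | j < i}) → a ∈ Ideal.span (q '' {j | j < i})

/-- [S_SOC] the socle of the quotient of a regular local ring by a system of parameters is simple

Sketch. With the exchange argument of S_CM: if `q` and `q'` are systems of parameters which differ in one member only,
`q = (c, a)`, `q' = (c, b)`, then multiplication by `b` identifies the socle of `P/(c, a)` with that of `P/(c, a b)`: if
`𝔪 w ⊆ (c, a b)` then `a w ∈ (c, a b)`, so `w ∈ (c, b)`. For `q = x` the socle of `P/𝔪` is simple. -/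
def S_SOC : Prop := ∀ (P : Type) [CommRing P] [IsRegularLocalRing P] (n : ℕ), ringKrullDim P = n → ∀ q : Fin n → P,
  (∀ i, q i ∈ maximalIdeal P) → (∃ k : ℕ, maximalIdeal P ^ k ≤ Ideal.span (Set.range q)) →
  ∀ u v : P, (∀ r ∈ maximalIdeal P, r * u ∈ Ideal.span (Set.range q)) →
    (∀ r ∈ maximalIdeal P, r * v ∈ Ideal.span (Set.range q)) → u ∉ Ideal.span (Set.range q) →
    ∃ r : P, v - r * u ∈ Ideal.span (Set.range q)

/-- `g` are generators of `J` and `s ∈ 𝔪` such that `(g_0, …, g_(n-1), s)` is `𝔪`-primary, `J'` agrees with `I` at the minimal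
primes of `I` (there is `t`, not a zero divisor modulo `I`, `(J, t)` `𝔪`-primary, with `t I ⊆ J'`), `s I ⊆ J` -/
structure Good {P : Type} [CommRing P] [IsLocalRing P] {n : ℕ} (f g : Fin (n + 1) → P) (s : P) : Prop where
  gen : JJ g = JJ f
  mem : s ∈ maximalIdeal P
  prim : ∃ k : ℕ, maximalIdeal P ^ k ≤ JC g ⊔ Ideal.span {s}
  loc : ∃ t : P, (∀ a, t * a ∈ sat (JJ f) → a ∈ sat (JJ f)) ∧ (∀ a ∈ sat (JJ f), t * a ∈ JC g) ∧
    ∃ k : ℕ, maximalIdeal P ^ k ≤ JJ g ⊔ Ideal.span {t}
  small : ∀ a ∈ sat (JJ f), s * a ∈ JJ f

/-- [S_GEN] general position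

Sketch. Minimal primes `p_k` of `J`: height `n` (`≠ 𝔪`), `I = ⋂ p_k`, `J P_(p_k) = p_k P_(p_k)` (`I` radical), so by S_SER
`V_k := J ⊗ κ(p_k)` = cotangent space of `P_(p_k)` has dimension `n`. Choose `g_i ∈ f_i + (f_(i+1), …, f_n)`, `i < n`, one after
the other, such that (a) `g_i` is in no minimal prime of `(g_0, …, g_(i-1))` (these have height `i < n`, so do not contain `J`), (b) the
image of `g_i` in `V_k` is not in the span of the images of `g_0, …, g_(i-1)`. Unified avoidance lemma: finitely many distinct primes
`q_j` and submodules `N_j` of a module `M` with `q_j M ⊆ N_j` and (`c ∉ q_j`, `c y ∈ N_j` ⟹ `y ∈ N_j`), `y ∈ M`, `B` a submodule, for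
no `j` both `y ∈ N_j` and `B ⊆ N_j` ⟹ some element of `y + B` is in no `N_j` (induction; `q_m` minimal among the `q_j`; if `y' = y + b`
is in `N_m` only, take `b' ∈ B ∖ N_m`, `c ∈ ⋂_(j≠m) q_j ∖ q_m`, `y' + c b'`). At the end the `g_i`, `i < n`, are a basis of all `V_k`
(so `J' P_(p_k) = p_k P_(p_k)`, Nakayama), every prime over `J'` has height `≥ n`; `s ∈ 𝔪^N` outside the minimal primes of `J'`
(`𝔪^N I ⊆ J`), `t ∈ (J' : I)` outside the `p_k`. -/
def S_GEN : Prop := ∀ (P : Type) [CommRing P] [IsRegularLocalRing P] (n : ℕ), ringKrullDim P = (n + 1 : ℕ) →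
  ∀ f : Fin (n + 1) → P, ringKrullDim (P ⧸ JJ f) = 1 → (sat (JJ f)).IsRadical →
    ∃ (g : Fin (n + 1) → P) (s : P), Good f g s

end Pool.Agent.L7h93.GP
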