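import Mathlib
import Pool.Agent.L7h93.GP.Stm

/-!
# The embedding of `I² / I J` into `P / (J', s)`
-/

set_option autoImplicit false

namespace Pool.Agent.L7h93.GP

open IsLocalRing

section Syz

variable {P : Type} [CommRing P]

/-- a regular sequence (in this order) -/
def RegSeq {n : ℕ} (y : Fin n → P) : Prop :=
  ∀ (i : Fin n) (a : P), y i * a ∈ Ideal.span (y '' {j | j < i}) → a ∈ Ideal.span (y '' {j | j < i})

theorem image_castSucc {n : ℕ} (y : Fin (n + 1) → P) (i : Fin n) :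
    (fun j : Fin n => y j.castSucc) '' {j | j < i} = y '' {j | j < i.castSucc} := by
  ext a
  constructor
  · rintro ⟨j, hj, rfl⟩
    exact ⟨j.castSucc, by simpa using hj, rfl⟩
  · rintro ⟨j, hj, rfl⟩
    have hj' : (j : ℕ) < i := hj
    refine ⟨⟨j, by omega⟩, ?_, ?_⟩
    · exact hj'
    · congr 1

theorem image_last {n : ℕ} (y : Fin (n + 1) → P) :
    y '' {j | j < Fin.last n} = Set.range fun j : Fin n => y j.castSucc := by
  ext a
  constructor
  · rintro ⟨j, hj, rfl⟩
    have hj' : (j : ℕ) < n := hj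
    exact ⟨⟨j, hj'⟩, by congr 1⟩
  · rintro ⟨j, rfl⟩
    exact ⟨j.castSucc, Fin.castSucc_lt_last j, rfl⟩

theorem RegSeq.init {n : ℕ} {y : Fin (n + 1) → P} (h : RegSeq y) : RegSeq fun j : Fin n => y j.castSucc := by
  intro i a ha
  rw [image_castSucc] at ha ⊢
  exact h i.castSucc a ha

theorem RegSeq.last {n : ℕ} {y : Fin (n + 1) → P} (h : RegSeq y) (a : P)
    (ha : y (Fin.last n) * a ∈ Ideal.span (Set.range fun j : Fin n => y j.castSucc)) :
    a ∈ Ideal.span (Set.range fun j : Fin n => y j.castSucc) := by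
  rw [← image_last] at ha ⊢
  exact h _ a ha

/-- syzygies of a regular sequence have coefficients in the ideal -/
theorem syz {n : ℕ} : ∀ (y : Fin n → P), RegSeq y → ∀ c : Fin n → P, ∑ i, c i * y i = 0 →
    ∀ i : Fin n, c i ∈ Ideal.span (Set.range y) := by
  induction n with
  | zero => intro y h c hc i; exact i.elim0
  | succ n ih =>
    intro y h c hc
    rw [Fin.sum_univ_castSucc] at hc
    have hle : Ideal.span (Set.range fun j : Fin n => y j.castSucc) ≤ Ideal.span (Set.range y) := by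
      refine Ideal.span_mono ?_
      rintro _ ⟨j, rfl⟩
      exact ⟨j.castSucc, rfl⟩
    have h1 : c (Fin.last n) ∈ Ideal.span (Set.range fun j : Fin n => y j.castSucc) := by
      refine h.last _ ?_
      have e : y (Fin.last n) * c (Fin.last n) = -∑ i : Fin n, c i.castSucc * y i.castSucc := by
        rw [eq_neg_iff_add_eq_zero, ← hc]
        ring
      rw [e]
      refine (Ideal.neg_mem_iff _).2 (Ideal.sum_mem _ fun i _ => ?_)
      exact Ideal.mul_mem_left _ _ (Ideal.subset_span ⟨i, rfl⟩)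
    obtain ⟨b, hb⟩ := (Ideal.mem_span_range_iff_exists_fun).1 h1
    have h2 := ih (fun j => y j.castSucc) h.init (fun j => c j.castSucc + b j * y (Fin.last n)) (by
      have e : ∑ i : Fin n, (c i.castSucc + b i * y (Fin.last n)) * y i.castSucc =
          ∑ i : Fin n, c i.castSucc * y i.castSucc + (∑ i, b i * y i.castSucc) * y (Fin.last n) := by
        rw [Finset.sum_mul, ← Finset.sum_add_distrib]
        exact Finset.sum_congr rfl fun i _ => by ring
      rw [e, hb, hc])
    intro i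
    induction i using Fin.lastCases with
    | last => exact hle h1
    | cast j =>
      have h3 := hle (h2 j)
      have h4 : b j * y (Fin.last n) ∈ Ideal.span (Set.range y) :=
        Ideal.mul_mem_left _ _ (Ideal.subset_span ⟨_, rfl⟩)
      have h5 := Ideal.sub_mem _ h3 h4
      rwa [add_sub_cancel_right] at h5

end Syz

section Sat

variable {P : Type} [CommRing P] [IsLocalRing P]

theorem mem_sat {J : Ideal P} {a : P} : a ∈ sat J ↔ ∃ k : ℕ, ∀ r ∈ maximalIdeal P ^ k, r * a ∈ J := Iff.rfl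

theorem le_sat (J : Ideal P) : J ≤ sat J := fun a ha => ⟨0, fun r _ => Ideal.mul_mem_left _ _ ha⟩

/-- one power for the whole saturation -/
theorem sat_pow [IsNoetherianRing P] (J : Ideal P) : ∃ N : ℕ, ∀ r ∈ maximalIdeal P ^ N, ∀ a ∈ sat J, r * a ∈ J := by
  classical
  obtain ⟨S, hS⟩ := IsNoetherian.noetherian (sat J)
  have hm : ∀ a : P, ∃ k : ℕ, a ∈ sat J → ∀ r ∈ maximalIdeal P ^ k, r * a ∈ J := by
    intro a
    by_cases h : a ∈ sat J
    · obtain ⟨k, hk⟩ := h
      exact ⟨k, fun _ => hk⟩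
    · exact ⟨0, fun h' => absurd h' h⟩
  choose k hk using hm
  refine ⟨S.sup k, fun r hr a ha => ?_⟩
  have ha' : a ∈ Submodule.span P (S : Set P) := hS ▸ ha
  refine Submodule.span_induction (p := fun a _ => r * a ∈ J) ?_ ?_ ?_ ?_ ha'
  · intro x hx
    refine hk x ?_ r (Ideal.pow_le_pow_right (Finset.le_sup hx) hr)
    rw [← hS]
    exact Submodule.subset_span hx
  · rw [mul_zero]; exact J.zero_mem
  · intro x y _ _ hx hy
    rw [mul_add]; exact J.add_mem hx hy
  · intro c x _ hx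
    rw [smul_eq_mul, mul_left_comm]
    exact J.mul_mem_left _ hx

theorem sat_sat [IsNoetherianRing P] (J : Ideal P) (a : P) (k : ℕ) (h : ∀ r ∈ maximalIdeal P ^ k, r * a ∈ sat J) :
    a ∈ sat J := by
  obtain ⟨N, hN⟩ := sat_pow J
  refine ⟨N + k, fun r hr => ?_⟩
  rw [pow_add] at hr
  refine Submodule.mul_induction_on hr (fun x hx y hy => ?_) (fun x y hx hy => ?_)
  · rw [mul_assoc]
    exact hN x hx _ (h y hy)
  · rw [add_mul]
    exact J.add_mem hx hy

end Sat

section Aux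

variable {P : Type} [CommRing P] {n : ℕ}

theorem JC_le (g : Fin (n + 1) → P) : JC g ≤ JJ g := by
  refine Ideal.span_mono ?_
  rintro _ ⟨j, rfl⟩
  exact ⟨j.castSucc, rfl⟩

theorem last_mem (g : Fin (n + 1) → P) : g (Fin.last n) ∈ JJ g := Ideal.subset_span ⟨_, rfl⟩

theorem JJ_eq (g : Fin (n + 1) → P) : JJ g = JC g ⊔ Ideal.span {g (Fin.last n)} := by
  refine le_antisymm ?_ (sup_le (JC_le g) ((Ideal.span_singleton_le_iff_mem _).2 (last_mem g)))
  refine Ideal.span_le.2 ?_
  rintro _ ⟨j, rfl⟩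
  induction j using Fin.lastCases with
  | last => exact Ideal.mem_sup_right (Ideal.mem_span_singleton_self _)
  | cast i => exact Ideal.mem_sup_left (Ideal.subset_span ⟨i, rfl⟩)

theorem mem_JJ {g : Fin (n + 1) → P} {a : P} (ha : a ∈ JJ g) : ∃ t, a - g (Fin.last n) * t ∈ JC g := by
  rw [JJ_eq, Submodule.mem_sup] at ha
  obtain ⟨y, hy, z, hz, rfl⟩ := ha
  obtain ⟨t, rfl⟩ := Ideal.mem_span_singleton'.1 hz
  refine ⟨t, ?_⟩
  have : y + t * g (Fin.last n) - g (Fin.last n) * t = y := by ring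
  rwa [this]

end Aux

section Main

variable {P : Type} [CommRing P] [IsLocalRing P] [IsNoetherianRing P] {n : ℕ} {f g : Fin (n + 1) → P} {s : P}

/-- the hypotheses used from the theory of regular local rings -/
structure Setup (f g : Fin (n + 1) → P) (s : P) : Prop extends Good f g s where
  reg : RegSeq fun j : Fin n => g j.castSucc
  sreg : ∀ a, s * a ∈ JC g → a ∈ JC g

namespace Setup

variable (h : Setup f g s)
include h

omit [IsNoetherianRing P] in
theorem JC_le_I : JC g ≤ sat (JJ f) := (JC_le g).trans (h.gen ▸ le_sat _)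

omit [IsNoetherianRing P] in
theorem last_mem_I : g (Fin.last n) ∈ sat (JJ f) := le_sat _ (h.gen ▸ last_mem g)

omit [IsNoetherianRing P] in
theorem spow (k : ℕ) (a : P) (ha : s ^ k * a ∈ JC g) : a ∈ JC g := by
  induction k with
  | zero => simpa using ha
  | succ k ih =>
    refine ih (h.sreg _ ?_)
    rwa [← mul_assoc, ← pow_succ']

omit [IsNoetherianRing P] in
/-- `I ∩ (J' : g_n) = J'` -/
theorem colon (a : P) (ha : a ∈ sat (JJ f)) (h1 : g (Fin.last n) * a ∈ JC g) : a ∈ JC g := by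
  obtain ⟨t, -, ht, k, hk⟩ := h.loc
  refine h.spow k a ?_
  have h2 := hk (Ideal.pow_mem_pow h.mem k)
  obtain ⟨y, hy, z, hz, hyz⟩ := Submodule.mem_sup.1 h2
  obtain ⟨c, rfl⟩ := Ideal.mem_span_singleton'.1 hz
  obtain ⟨d, hd⟩ := mem_JJ hy
  have e : s ^ k * a = (y - g (Fin.last n) * d) * a + d * (g (Fin.last n) * a) + c * (t * a) := by
    rw [← hyz]; ring
  rw [e]
  exact Ideal.add_mem _ (Ideal.add_mem _ (Ideal.mul_mem_right _ _ hd) (Ideal.mul_mem_left _ _ h1))
    (Ideal.mul_mem_left _ _ (ht a ha))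

/-- `s` is regular modulo `I` -/
theorem sI (a : P) (ha : s * a ∈ sat (JJ f)) : a ∈ sat (JJ f) := by
  obtain ⟨k, hk⟩ := h.prim
  refine sat_sat _ a k fun r hr => ?_
  obtain ⟨y, hy, z, hz, rfl⟩ := Submodule.mem_sup.1 (hk hr)
  obtain ⟨c, rfl⟩ := Ideal.mem_span_singleton'.1 hz
  rw [add_mul, mul_assoc]
  exact Ideal.add_mem _ (Ideal.mul_mem_right _ _ (h.JC_le_I hy)) (Ideal.mul_mem_left _ _ ha)

omit [IsNoetherianRing P] in
/-- `I² ∩ J' = I J'` -/
theorem inter (u : P) (hu : u ∈ sat (JJ f) ^ 2) (hu2 : u ∈ JC g) : u ∈ sat (JJ f) * JC g := by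
  obtain ⟨t, htr, ht, -⟩ := h.loc
  have h1 : t * t * u ∈ JC g * JC g := by
    rw [pow_two] at hu
    refine Submodule.mul_induction_on hu (fun x hx y hy => ?_) (fun x y hx hy => ?_)
    · have e : t * t * (x * y) = (t * x) * (t * y) := by ring
      rw [e]
      exact Ideal.mul_mem_mul (ht x hx) (ht y hy)
    · rw [mul_add]
      exact Ideal.add_mem _ hx hy
  obtain ⟨a, ha⟩ := (Ideal.mem_span_range_iff_exists_fun).1 hu2
  have h2 : ∃ c : Fin n → P, (∀ i, c i ∈ JC g) ∧ ∑ i, c i * g i.castSucc = t * t * u := by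
    have h3 : t * t * u ∈ JC g • Submodule.span P (Set.range fun i : Fin n => g i.castSucc) := h1
    rw [Submodule.mem_ideal_smul_span_iff_exists_sum] at h3
    obtain ⟨c, hc, hc2⟩ := h3
    refine ⟨c, hc, ?_⟩
    rw [← hc2, Finsupp.sum_fintype _ _ (by simp)]
    rfl
  obtain ⟨c, hc, hc2⟩ := h2
  have h3 := syz _ h.reg (fun i => t * t * a i - c i) (by
    have e : ∑ i, (t * t * a i - c i) * g i.castSucc = t * t * ∑ i, a i * g i.castSucc - ∑ i, c i * g i.castSucc := by
      rw [Finset.mul_sum, ← Finset.sum_sub_distrib]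
      exact Finset.sum_congr rfl fun i _ => by ring
    rw [e, ha, hc2, sub_self])
  rw [← ha]
  refine Ideal.sum_mem _ fun i _ => Ideal.mul_mem_mul ?_ (Ideal.subset_span ⟨i, rfl⟩)
  refine htr _ (htr _ (h.JC_le_I ?_))
  have h4 : t * t * a i - c i + c i ∈ JC g := Ideal.add_mem (JC g) (h3 i) (hc i)
  rwa [sub_add_cancel, mul_assoc] at h4

omit [IsNoetherianRing P] in
/-- the relation which defines `Φ` -/
theorem exists_rel (u : P) (hu : u ∈ sat (JJ f) ^ 2) :
    ∃ i ∈ sat (JJ f), s * u - g (Fin.last n) * i ∈ JC g := by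
  rw [pow_two] at hu
  refine Submodule.mul_induction_on hu (fun x hx y hy => ?_) (fun x y hx hy => ?_)
  · obtain ⟨t, ht⟩ := mem_JJ (h.gen ▸ h.small x hx)
    refine ⟨t * y, Ideal.mul_mem_left _ _ hy, ?_⟩
    have e : s * (x * y) - g (Fin.last n) * (t * y) = (s * x - g (Fin.last n) * t) * y := by ring
    rw [e]
    exact Ideal.mul_mem_right _ _ ht
  · obtain ⟨i, hi, h1⟩ := hx
    obtain ⟨j, hj, h2⟩ := hy
    refine ⟨i + j, Ideal.add_mem _ hi hj, ?_⟩
    have e : s * (x + y) - g (Fin.last n) * (i + j) =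
      (s * x - g (Fin.last n) * i) + (s * y - g (Fin.last n) * j) := by ring
    rw [e]
    exact Ideal.add_mem _ h1 h2

omit [IsNoetherianRing P] in
theorem rel_unique (u i j : P) (hi : i ∈ sat (JJ f)) (hj : j ∈ sat (JJ f)) (h1 : s * u - g (Fin.last n) * i ∈ JC g)
    (h2 : s * u - g (Fin.last n) * j ∈ JC g) : i - j ∈ JC g := by
  refine h.colon _ (Ideal.sub_mem _ hi hj) ?_
  have e : g (Fin.last n) * (i - j) = (s * u - g (Fin.last n) * j) - (s * u - g (Fin.last n) * i) := by ring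
  rw [e]
  exact Ideal.sub_mem _ h2 h1

omit [IsNoetherianRing P] in
/-- the map `Φ : I² → P / (J', s)` -/
theorem exists_Phi : ∃ Φ : ↥(sat (JJ f) ^ 2) →ₗ[P] P ⧸ (JC g ⊔ Ideal.span {s}),
    ∀ (u : ↥(sat (JJ f) ^ 2)) (i : P), i ∈ sat (JJ f) → s * (u : P) - g (Fin.last n) * i ∈ JC g →
      Φ u = Ideal.Quotient.mk _ i := by
  classical
  have h0 : ∀ u : ↥(sat (JJ f) ^ 2), ∃ i ∈ sat (JJ f), s * (u : P) - g (Fin.last n) * i ∈ JC g :=
    fun u => h.exists_rel u u.2
  choose F hF1 hF2 using h0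
  have key : ∀ (u : ↥(sat (JJ f) ^ 2)) (i : P), i ∈ sat (JJ f) → s * (u : P) - g (Fin.last n) * i ∈ JC g →
      (Ideal.Quotient.mk (JC g ⊔ Ideal.span {s})) (F u) = Ideal.Quotient.mk _ i := by
    intro u i hi h1
    rw [Ideal.Quotient.mk_eq_mk_iff_sub_mem]
    exact Ideal.mem_sup_left (h.rel_unique u _ _ (hF1 u) hi (hF2 u) h1)
  refine ⟨{ toFun := fun u => Ideal.Quotient.mk _ (F u), map_add' := ?_, map_smul' := ?_ }, key⟩
  · intro u v
    rw [← map_add]
    refine key _ _ (Ideal.add_mem _ (hF1 u) (hF1 v)) ?_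
    have e : s * ((u + v : ↥(sat (JJ f) ^ 2)) : P) - g (Fin.last n) * (F u + F v) =
        (s * u - g (Fin.last n) * F u) + (s * v - g (Fin.last n) * F v) := by
      push_cast; ring
    rw [e]
    exact Ideal.add_mem _ (hF2 u) (hF2 v)
  · intro r u
    rw [RingHom.id_apply]
    have h9 : s * ((r • u : ↥(sat (JJ f) ^ 2)) : P) - g (Fin.last n) * (r * F u) ∈ JC g := by
      have e : s * ((r • u : ↥(sat (JJ f) ^ 2)) : P) - g (Fin.last n) * (r * F u) =
          r * (s * u - g (Fin.last n) * F u) := by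
        push_cast; rw [smul_eq_mul]; ring
      rw [e]
      exact Ideal.mul_mem_left _ _ (hF2 u)
    have h10 := key (r • u) (r * F u) (Ideal.mul_mem_left _ _ (hF1 u)) h9
    rw [map_mul] at h10
    exact h10

/-- the kernel of `Φ` is `I J` -/
theorem ker_Phi (u i : P) (hu : u ∈ sat (JJ f) ^ 2) (hi : i ∈ sat (JJ f)) (h1 : s * u - g (Fin.last n) * i ∈ JC g) :
    i ∈ JC g ⊔ Ideal.span {s} ↔ u ∈ sat (JJ f) * JJ f := by
  constructor
  · intro h2
    obtain ⟨y, hy, z, hz, rfl⟩ := Submodule.mem_sup.1 h2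
    obtain ⟨r, rfl⟩ := Ideal.mem_span_singleton'.1 hz
    have h3 : u - g (Fin.last n) * r ∈ JC g := by
      refine h.sreg _ ?_
      have e : s * (u - g (Fin.last n) * r) = (s * u - g (Fin.last n) * (y + r * s)) + g (Fin.last n) * y := by ring
      rw [e]
      exact Ideal.add_mem _ h1 (Ideal.mul_mem_left _ _ hy)
    have h4 : r ∈ sat (JJ f) := by
      refine h.sI r ?_
      have e : s * r = (y + r * s) - y := by ring
      rw [e]
      exact Ideal.sub_mem _ hi (h.JC_le_I hy)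
    have h5 : g (Fin.last n) * r ∈ sat (JJ f) * JJ f := by
      rw [mul_comm (g (Fin.last n)) r]
      exact Ideal.mul_mem_mul h4 (h.gen ▸ last_mem g)
    have h6 : sat (JJ f) * JJ f ≤ sat (JJ f) ^ 2 := by
      rw [pow_two]
      exact Ideal.mul_mono_right (le_sat _)
    have h7 := h.inter (u - g (Fin.last n) * r) (Ideal.sub_mem _ hu (h6 h5)) h3
    have h8 : sat (JJ f) * JC g ≤ sat (JJ f) * JJ f := Ideal.mul_mono_right (h.gen ▸ JC_le g)
    have := Ideal.add_mem _ (h8 h7) h5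
    simpa using this
  · intro h2
    have hJ : sat (JJ f) * JJ f = sat (JJ f) * (JC g ⊔ Ideal.span {g (Fin.last n)}) := by rw [← JJ_eq, h.gen]
    rw [hJ, Ideal.mul_sup, Submodule.mem_sup] at h2
    obtain ⟨y, hy, z, hz, rfl⟩ := h2
    obtain ⟨r, hr, rfl⟩ := Ideal.mem_mul_span_singleton.1 hz
    have hy' : y ∈ JC g := Ideal.mul_le_right hy
    have h3 := h.rel_unique (y + r * g (Fin.last n)) i (s * r) hi (Ideal.mul_mem_left _ _ hr) h1 (by
      have e : s * (y + r * g (Fin.last n)) - g (Fin.last n) * (s * r) = s * y := by ring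
      rw [e]
      exact Ideal.mul_mem_left _ _ hy')
    have h4 : i = (i - s * r) + r * s := by ring
    rw [h4]
    exact Ideal.add_mem _ (Ideal.mem_sup_left h3) (Ideal.mem_sup_right (Ideal.mem_span_singleton'.2 ⟨r, rfl⟩))

end Setup

end Main

end Pool.Agent.L7h93.GP
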