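import Mathlib
import Pool.Agent.L7h93.GP.Alg
import Pool.Agent.Helper819.DC.CSEL

/-!
# Self-injectivity of `P / (J', s)` and `I² ≠ I J`
-/

set_option autoImplicit false

namespace Pool.Agent.L7h93.GP

open IsLocalRing

section SelfInj

variable {K P : Type} [Field K] [CommRing P] [IsLocalRing P] [Algebra K P]

/-- the socle of `P / Q` is simple (or zero) -/
def SimpleSoc (Q : Ideal P) : Prop := ∀ u v : P, (∀ r ∈ maximalIdeal P, r * u ∈ Q) →
  (∀ r ∈ maximalIdeal P, r * v ∈ Q) → u ∉ Q → ∃ r : P, v - r * u ∈ Q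

/-- socle elements -/
theorem exists_socle {P : Type} [CommRing P] [IsLocalRing P] (Q : Ideal P) (k : ℕ) (hk : maximalIdeal P ^ k ≤ Q)
    (x : P) (hx : x ∉ Q) : ∃ r, r * x ∉ Q ∧ ∀ w ∈ maximalIdeal P, w * (r * x) ∈ Q := by
  classical
  have hex : ∃ j, ∀ r ∈ maximalIdeal P ^ j, r * x ∈ Q := ⟨k, fun r hr => Ideal.mul_mem_right _ _ (hk hr)⟩
  have h1 := Nat.find_spec hex
  have h2 : Nat.find hex ≠ 0 := by
    intro h0
    rw [h0] at h1
    exact hx (by simpa using h1 1 (by simp))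
  have h3 := Nat.find_min hex (m := Nat.find hex - 1) (by omega)
  push Not at h3
  obtain ⟨r, hr, hrx⟩ := h3
  refine ⟨r, hrx, fun w hw => ?_⟩
  rw [← mul_assoc]
  refine h1 _ ?_
  have : maximalIdeal P ^ Nat.find hex = maximalIdeal P * maximalIdeal P ^ (Nat.find hex - 1) := by
    rw [← pow_succ']; congr 1; omega
  rw [this]
  exact Ideal.mul_mem_mul hw hr

/-- a nondegenerate functional -/
theorem exists_tau (Q : Ideal P) (k : ℕ) (hk : maximalIdeal P ^ k ≤ Q) (hsoc : SimpleSoc Q) :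
    ∃ τ : (P ⧸ Q) →ₗ[K] K, ∀ x : P, x ∉ Q → ∃ r, τ (Ideal.Quotient.mk Q (r * x)) ≠ 0 := by
  by_cases h1 : (1 : P) ∈ Q
  · exact ⟨0, fun x hx => absurd ((Ideal.eq_top_iff_one Q).2 h1 ▸ Submodule.mem_top) hx⟩
  obtain ⟨σ, hσ, hσ2⟩ := exists_socle Q k hk 1 h1
  rw [mul_one] at hσ
  have h2 : (Ideal.Quotient.mk Q σ) ≠ 0 := by rwa [Ne, Ideal.Quotient.eq_zero_iff_mem]
  have h3 : ∃ τ : Module.Dual K (P ⧸ Q), τ (Ideal.Quotient.mk Q σ) ≠ 0 := by
    by_contra hcon
    push Not at hcon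
    exact h2 ((Module.forall_dual_apply_eq_zero_iff K _).1 hcon)
  obtain ⟨τ, hτ⟩ := h3
  refine ⟨τ, fun x hx => ?_⟩
  obtain ⟨r, hr, hr2⟩ := exists_socle Q k hk x hx
  obtain ⟨r', hr'⟩ := hsoc (r * x) σ hr2 (by simpa using hσ2) hr
  refine ⟨r' * r, ?_⟩
  have e : Ideal.Quotient.mk Q (r' * r * x) = Ideal.Quotient.mk Q σ := by
    rw [mul_assoc]
    exact ((Ideal.Quotient.mk_eq_mk_iff_sub_mem _ _).2 hr').symm
  rw [e]
  exact hτ

theorem finiteDim [IsNoetherianRing P] (hK : ∀ a : P, ∃ c : K, a - algebraMap K P c ∈ maximalIdeal P) (Q : Ideal P)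
    (k : ℕ) (hk : maximalIdeal P ^ k ≤ Q) : FiniteDimensional K (P ⧸ Q) := by
  obtain ⟨V, hV, h⟩ := Pool.Agent.Helper819.DC.CSEL.finite_of_pow_le hK k Q hk
  exact Pool.Agent.Helper819.DC.CSEL.finiteDimensional_of_fg Q V hV h

/-- `P / Q` is self-injective -/
theorem selfinj [IsNoetherianRing P] (hK : ∀ a : P, ∃ c : K, a - algebraMap K P c ∈ maximalIdeal P) (Q : Ideal P)
    (k : ℕ) (hk : maximalIdeal P ^ k ≤ Q) (hsoc : SimpleSoc Q) (A : Ideal P) (F : A →ₗ[P] P ⧸ Q)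
    (hF : ∀ a : A, (a : P) ∈ Q → F a = 0) : ∃ r : P, ∀ a : A, F a = Ideal.Quotient.mk Q (r * a) := by
  have hfin := finiteDim hK Q k hk
  obtain ⟨τ, hτ⟩ := exists_tau (K := K) Q k hk hsoc
  let D : (P ⧸ Q) →ₗ[K] Module.Dual K (P ⧸ Q) := (LinearMap.mul K (P ⧸ Q)).compr₂ τ
  have hD : ∀ x y, D x y = τ (x * y) := fun x y => rfl
  have hinj : Function.Injective D := by
    rw [injective_iff_map_eq_zero]
    intro x hx
    obtain ⟨x', rfl⟩ := Ideal.Quotient.mk_surjective x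
    by_contra hne
    rw [Ideal.Quotient.eq_zero_iff_mem] at hne
    obtain ⟨r, hr⟩ := hτ x' hne
    apply hr
    have : D (Ideal.Quotient.mk Q x') (Ideal.Quotient.mk Q r) = 0 := by rw [hx]; rfl
    rw [hD, ← map_mul, mul_comm] at this
    exact this
  have hsurj : Function.Surjective D :=
    (LinearMap.injective_iff_surjective_of_finrank_eq_finrank (Subspace.dual_finrank_eq).symm).1 hinj
  let ι : A →ₗ[K] (P ⧸ Q) := ((Ideal.Quotient.mkₐ K Q).toLinearMap).comp ((A.subtype).restrictScalars K)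
  have hι : ∀ a : A, ι a = Ideal.Quotient.mk Q a := fun a => rfl
  let φ : Module.Dual K A := τ.comp (F.restrictScalars K)
  have hφ : ∀ a, φ a = τ (F a) := fun a => rfl
  have h1 : φ ∈ LinearMap.range ι.dualMap := by
    rw [LinearMap.range_dualMap_eq_dualAnnihilator_ker, Submodule.mem_dualAnnihilator]
    intro a ha
    rw [LinearMap.mem_ker, hι, Ideal.Quotient.eq_zero_iff_mem] at ha
    rw [hφ, hF a ha, map_zero]
  obtain ⟨l, hl⟩ := h1
  obtain ⟨x, rfl⟩ := hsurj l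
  obtain ⟨r, rfl⟩ := Ideal.Quotient.mk_surjective x
  have h2 : ∀ a : A, τ (F a) = τ (Ideal.Quotient.mk Q (r * a)) := by
    intro a
    have := congrArg (fun l => l a) hl
    rw [map_mul, ← hD, ← hφ, ← hι]
    exact this.symm
  refine ⟨r, fun a => ?_⟩
  by_contra hne
  obtain ⟨y, hy⟩ := Ideal.Quotient.mk_surjective (F a - Ideal.Quotient.mk Q (r * a))
  have hyQ : y ∉ Q := by
    rw [← Ideal.Quotient.eq_zero_iff_mem, hy, sub_eq_zero]
    exact hne
  obtain ⟨p, hp⟩ := hτ y hyQ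
  apply hp
  have e : Ideal.Quotient.mk Q (p * y) = F (p • a) - Ideal.Quotient.mk Q (r * (p • a : A)) := by
    rw [map_mul, hy, mul_sub, F.map_smul, Submodule.coe_smul, smul_eq_mul]
    congr 1
    rw [← map_mul]
    congr 1
    ring
  rw [e, map_sub, h2, sub_self]

end SelfInj

section Div

theorem exists_div {P M N : Type} [CommRing P] [AddCommGroup M] [Module P M] [AddCommGroup N] [Module P N]
    (s : P) (hs : ∀ y : N, s • y = 0 → y = 0) (μ : M →ₗ[P] N) (h : ∀ b, ∃ y, s • y = μ b) :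
    ∃ μ' : M →ₗ[P] N, ∀ b, s • μ' b = μ b := by
  have hs' : ∀ y z : N, s • y = s • z → y = z := by
    intro y z hyz
    rw [← sub_eq_zero, ← smul_sub] at hyz
    exact sub_eq_zero.1 (hs _ hyz)
  choose y hy using h
  refine ⟨{ toFun := y, map_add' := ?_, map_smul' := ?_ }, hy⟩
  · intro a b
    apply hs'
    rw [hy, map_add, smul_add, hy, hy]
  · intro r a
    apply hs'
    rw [hy, map_smul, RingHom.id_apply, smul_comm, hy]

end Div

namespace Setup

variable {K P : Type} [Field K] [CommRing P] [IsLocalRing P] [IsNoetherianRing P] [Algebra K P] {n : ℕ}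
  {f g : Fin (n + 1) → P} {s : P}

/-- the inclusion `I → P / J'` -/
noncomputable def inc (f g : Fin (n + 1) → P) : ↥(sat (JJ f)) →ₗ[P] P ⧸ JC g :=
  (Submodule.mkQ (JC g)).comp (Submodule.subtype (sat (JJ f)))

omit [IsNoetherianRing P] in
theorem inc_apply (b : ↥(sat (JJ f))) : inc f g b = Ideal.Quotient.mk (JC g) b := rfl

omit [IsLocalRing P] [IsNoetherianRing P] in
theorem smul_mk (r x : P) : r • (Ideal.Quotient.mk (JC g) x) = Ideal.Quotient.mk (JC g) (r * x) := rfl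

omit [IsNoetherianRing P] in
theorem sreg' (h : Setup f g s) (y : P ⧸ JC g) (hy : s • y = 0) : y = 0 := by
  obtain ⟨x, rfl⟩ := Ideal.Quotient.mk_surjective y
  rw [smul_mk, Ideal.Quotient.eq_zero_iff_mem] at hy
  exact Ideal.Quotient.eq_zero_iff_mem.2 (h.sreg x hy)

/-- homomorphisms from `I / J'` to `P / J'` are multiplications -/
theorem hom_mul (h : Setup f g s) (hK : ∀ a : P, ∃ c : K, a - algebraMap K P c ∈ maximalIdeal P)
    (hsoc : SimpleSoc (JC g ⊔ Ideal.span {s})) (μ : ↥(sat (JJ f)) →ₗ[P] P ⧸ JC g)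
    (hμ : ∀ b : ↥(sat (JJ f)), (b : P) ∈ JC g → μ b = 0) : ∃ r : P, ∀ b, μ b = Ideal.Quotient.mk (JC g) (r * b) := by
  let H0 : Submodule P (↥(sat (JJ f)) →ₗ[P] P ⧸ JC g) :=
    { carrier := {μ | ∀ b : ↥(sat (JJ f)), (b : P) ∈ JC g → μ b = 0}
      zero_mem' := fun b _ => rfl
      add_mem' := fun {μ ν} hμ hν b hb => by
        rw [LinearMap.add_apply, hμ b hb, hν b hb, add_zero]
      smul_mem' := fun c μ hμ b hb => by
        rw [LinearMap.smul_apply, hμ b hb, smul_zero] }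
  have hH0 : ∀ ν, ν ∈ H0 ↔ ∀ b : ↥(sat (JJ f)), (b : P) ∈ JC g → ν b = 0 := fun ν => Iff.rfl
  have key : H0 ≤ Submodule.span P {inc f g} ⊔ maximalIdeal P • H0 := by
    intro ν hν
    let pr : (P ⧸ JC g) →ₗ[P] P ⧸ (JC g ⊔ Ideal.span {s}) := Submodule.factor le_sup_left
    have hpr : ∀ x : P, pr (Ideal.Quotient.mk (JC g) x) = Ideal.Quotient.mk (JC g ⊔ Ideal.span {s}) x := fun x => rfl
    have hspr : ∀ y, pr (s • y) = 0 := by
      intro y
      obtain ⟨x, rfl⟩ := Ideal.Quotient.mk_surjective y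
      rw [smul_mk, hpr, Ideal.Quotient.eq_zero_iff_mem]
      exact Ideal.mul_mem_right _ _ (Ideal.mem_sup_right (Ideal.mem_span_singleton_self s))
    obtain ⟨k, hk⟩ := h.prim
    obtain ⟨r, hr⟩ := selfinj hK (JC g ⊔ Ideal.span {s}) k hk hsoc (sat (JJ f)) (pr.comp ν) (by
      intro a ha
      obtain ⟨y, hy, z, hz, hyz⟩ := Submodule.mem_sup.1 ha
      obtain ⟨c, rfl⟩ := Ideal.mem_span_singleton'.1 hz
      have hyI : y ∈ sat (JJ f) := h.JC_le_I hy
      have hcI : c ∈ sat (JJ f) := by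
        refine h.sI c ?_
        have e : s * c = (a : P) - y := by rw [← hyz]; ring
        rw [e]
        exact Ideal.sub_mem _ a.2 hyI
      have ea : a = ⟨y, hyI⟩ + s • (⟨c, hcI⟩ : ↥(sat (JJ f))) := by
        refine Subtype.ext ?_
        show (a : P) = y + s * c
        rw [← hyz]; ring
      rw [LinearMap.comp_apply, ea, map_add, hν _ hy, zero_add, map_smul, hspr])
    obtain ⟨ν', hν'⟩ := exists_div s h.sreg' (ν - r • inc f g) (by
      intro b
      have h1 := hr b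
      rw [LinearMap.comp_apply, ← hpr] at h1
      obtain ⟨x, hx⟩ := Ideal.Quotient.mk_surjective (ν b)
      rw [← hx, hpr, hpr, Ideal.Quotient.mk_eq_mk_iff_sub_mem] at h1
      obtain ⟨y, hy, z, hz, hyz⟩ := Submodule.mem_sup.1 h1
      obtain ⟨c, rfl⟩ := Ideal.mem_span_singleton'.1 hz
      refine ⟨Ideal.Quotient.mk _ c, ?_⟩
      rw [LinearMap.sub_apply, LinearMap.smul_apply, inc_apply, smul_mk, smul_mk, ← hx, ← map_sub,
        Ideal.Quotient.mk_eq_mk_iff_sub_mem, ← hyz]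
      have e : s * c - (y + c * s) = -y := by ring
      rw [e]
      exact (Ideal.neg_mem_iff _).2 hy)
    have hν0 : ν' ∈ H0 := by
      rw [hH0]
      intro b hb
      refine h.sreg' _ ?_
      rw [hν', LinearMap.sub_apply, hν b hb, LinearMap.smul_apply, inc_apply, Ideal.Quotient.eq_zero_iff_mem.2 hb,
        smul_zero, sub_zero]
    have e : ν = r • inc f g + s • ν' := by
      ext b
      rw [LinearMap.add_apply, LinearMap.smul_apply s, hν', LinearMap.sub_apply]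
      abel
    rw [e]
    exact Submodule.add_mem_sup (Submodule.smul_mem _ _ (Submodule.mem_span_singleton_self _))
      (Submodule.smul_mem_smul h.mem hν0)
  have h1 : H0 ≤ Submodule.span P {inc f g} :=
    Submodule.le_of_le_smul_of_le_jacobson_bot (IsNoetherian.noetherian H0)
      (IsLocalRing.maximalIdeal_le_jacobson _) key
  obtain ⟨r, hr⟩ := Submodule.mem_span_singleton.1 (h1 ((hH0 μ).2 hμ))
  refine ⟨r, fun b => ?_⟩
  rw [← hr, LinearMap.smul_apply, inc_apply, smul_mk]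

/-- `I² ≠ I J` if `I ≠ J` -/
theorem nonvanish (h : Setup f g s) (hK : ∀ a : P, ∃ c : K, a - algebraMap K P c ∈ maximalIdeal P)
    (hsoc : SimpleSoc (JC g ⊔ Ideal.span {s})) (hne : sat (JJ f) ≠ JJ f) :
    ∃ u ∈ sat (JJ f) ^ 2, u ∉ sat (JJ f) * JJ f := by
  by_contra hcon
  push Not at hcon
  refine hne (le_antisymm (fun a ha => ?_) (le_sat _))
  obtain ⟨t, ht⟩ := mem_JJ (h.gen ▸ h.small a ha)
  have h1 : ∀ b : ↥(sat (JJ f)), ∃ y : P ⧸ JC g, s • y = (t • inc f g) b := by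
    intro b
    have hab : a * b ∈ sat (JJ f) ^ 2 := by
      rw [pow_two]
      exact Ideal.mul_mem_mul ha b.2
    have h2 := (h.ker_Phi (a * b) (t * b) hab (Ideal.mul_mem_left _ _ b.2) (by
      have e : s * (a * b) - g (Fin.last n) * (t * b) = (s * a - g (Fin.last n) * t) * b := by ring
      rw [e]
      exact Ideal.mul_mem_right _ _ ht)).2 (hcon _ hab)
    obtain ⟨y, hy, z, hz, hyz⟩ := Submodule.mem_sup.1 h2
    obtain ⟨c, rfl⟩ := Ideal.mem_span_singleton'.1 hz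
    refine ⟨Ideal.Quotient.mk _ c, ?_⟩
    rw [LinearMap.smul_apply, inc_apply, smul_mk, smul_mk, Ideal.Quotient.mk_eq_mk_iff_sub_mem, ← hyz]
    have e : s * c - (y + c * s) = -y := by ring
    rw [e]
    exact (Ideal.neg_mem_iff _).2 hy
  obtain ⟨μ, hμ⟩ := exists_div s h.sreg' (t • inc f g) h1
  obtain ⟨r, hr⟩ := h.hom_mul hK hsoc μ (by
    intro b hb
    refine h.sreg' _ ?_
    rw [hμ, LinearMap.smul_apply, inc_apply, Ideal.Quotient.eq_zero_iff_mem.2 hb, smul_zero])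
  have h2 := hμ ⟨g (Fin.last n), h.last_mem_I⟩
  rw [hr, LinearMap.smul_apply, inc_apply, smul_mk, smul_mk, Ideal.Quotient.mk_eq_mk_iff_sub_mem] at h2
  have h3 : a - r * g (Fin.last n) ∈ JC g := by
    refine h.sreg _ ?_
    have e : s * (a - r * g (Fin.last n)) = (s * a - g (Fin.last n) * t) -
        (s * (r * g (Fin.last n)) - t * g (Fin.last n)) := by ring
    rw [e]
    exact Ideal.sub_mem _ ht h2
  have h4 : a - r * g (Fin.last n) + r * g (Fin.last n) ∈ JJ g :=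
    Ideal.add_mem _ (JC_le g h3) (Ideal.mul_mem_left _ _ (last_mem g))
  rw [sub_add_cancel, h.gen] at h4
  exact h4

end Setup

end Pool.Agent.L7h93.GP
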