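import Mathlib

/-!
# Koszul complexes and their chain maps (project GP, MP_1ce8ed_ag): definitions and statements

The Koszul complex of `q_1, …, q_m` is the exterior algebra of `P^m` with the contraction `e_i ↦ q_i` as differential.
-/

set_option autoImplicit false

namespace Pool.Agent.L7h93.GP

open ExteriorAlgebra

/-- the exterior algebra of `P^m` -/
abbrev EA (P : Type) [CommRing P] (m : ℕ) : Type := ExteriorAlgebra P (Fin m → P)

/-- the linear form `e_i ↦ q_i` on `P^m` -/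
noncomputable def form {P : Type} [CommRing P] {m : ℕ} (q : Fin m → P) : Module.Dual P (Fin m → P) :=
  ∑ i, q i • LinearMap.proj i

/-- the differential of the Koszul complex `K(q_1, …, q_m)`: the contraction with `e_i ↦ q_i` -/
noncomputable def kd {P : Type} [CommRing P] {m : ℕ} (q : Fin m → P) : EA P m →ₗ[P] EA P m :=
  CliffordAlgebra.contractLeft (form q)

/-- `e_1 ∧ ⋯ ∧ e_m` -/
noncomputable def vol (P : Type) [CommRing P] (m : ℕ) : EA P m :=
  ExteriorAlgebra.ιMulti P m fun i => (Pi.single i 1 : Fin m → P)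

/-- `θ` is a chain map (of degree `0`) from the Koszul complex of `q` to the Koszul complex of `f` which is multiplication
by `a` in degree `0` and multiplication by `c` in the top degree `m` -/
structure Lifts {P : Type} [CommRing P] {m : ℕ} (q f : Fin m → P) (θ : EA P m →ₗ[P] EA P m) (a c : P) : Prop where
  deg : ∀ (k : ℕ) (η : EA P m), η ∈ ⋀[P]^k (Fin m → P) → θ η ∈ ⋀[P]^k (Fin m → P)
  comm : ∀ η : EA P m, kd f (θ η) = θ (kd q η)
  bot : θ 1 = a • 1
  top : θ (vol P m) = c • vol P m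

/-- [S_SYM] symmetry

Sketch. `T(η, ζ)` = coefficient of `vol` in `θ η ∧ ψ ζ`, `X_i = x_i^N`, `Y_i = x_i^L`, `E_k = e_0 ∧ ⋯ ∧ e_(k-1)`,
`F_k = e_k ∧ ⋯ ∧ e_(m-1)`, hat = `involute`. For `η ∈ Λ^k`, `ζ ∈ Λ^(m+1-k)` the Leibniz rule applied to `θ η ∧ ψ ζ ∈ Λ^(m+1) = 0` gives
`T(dη, ζ) + T(hat η, dζ) = 0`; with `η = E_(k+1)`, `ζ = F_k`: `X_k T(hat E_k, F_k) + Y_k T(hat E_(k+1), F_(k+1)) =
- T((dE_k) e_k, F_k) + T(hat E_(k+1), e_k dF_(k+1))`. Multiply by `∏_(i<k) Y_i ∏_(i>k) X_i`: the right side is in the ideal of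
the `x_i^(N+L)`, so `G_k = T(hat E_k, F_k) ∏_(i<k) Y_i ∏_(i≥k) X_i` satisfies `G_k + G_(k+1) ∈ (x_i^(N+L))`, `G_0 = a e ∏ X_i`,
`G_m = (-1)^m b c ∏ Y_i`. -/
def S_SYM : Prop := ∀ (P : Type) [CommRing P] (m : ℕ) (x f : Fin m → P) (N L : ℕ) (θ ψ : EA P m →ₗ[P] EA P m) (a b c e : P),
  Lifts (fun i => x i ^ N) f θ a c → Lifts (fun i => x i ^ L) f ψ b e →
    b * c * ∏ i, x i ^ L - a * e * ∏ i, x i ^ N ∈ Ideal.span (Set.range fun i => x i ^ (N + L))

/-- [S_LIFT] a lift of `a` to `K(g_0, …, g_(n-1), s) → K(g_0, …, g_n)` if `s a = g_n t` modulo `(g_0, …, g_(n-1))`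

Sketch. `s a - g_n t = Σ r_i g_i`, `w = Σ r_i e_i + (t - a) e_n`, `δ` = contraction with the last coordinate `e_n^*`,
`θ η = a η + w ∧ δ η`. Chain map: contractLeft_ι_mul, contractLeft_comm, contractLeft_contractLeft and
`form q = form g + (s - g_n) e_n^*`. Top degree: `w ∧ vol = 0`, so `0 = δ (w ∧ vol) = (t - a) vol - w ∧ δ vol`. -/
def S_LIFT : Prop := ∀ (P : Type) [CommRing P] (n : ℕ) (q g : Fin (n + 1) → P) (a t : P),
  (∀ i : Fin n, q i.castSucc = g i.castSucc) →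
  q (Fin.last n) * a - g (Fin.last n) * t ∈ Ideal.span (Set.range fun i : Fin n => g i.castSucc) →
  ∃ θ, Lifts q g θ a t

/-- [S_BASE] change of the sequence

Sketch. `q`-combinations `x_i = Σ_j A_ij q_j`, `α(e_i) = Σ_j A_ij e_j`, `θ = ExteriorAlgebra.map α` (`kd q (map α η) =
map α (kd x η)` by `CliffordAlgebra.left_induction`), `D` exists since `Λ^m` is spanned by `vol` (Basis.ext_alternating), and
`D q_i vol = e_i ∧ kd q (D vol) = e_i ∧ θ (kd x vol)` has all coefficients in `(x)`; take the coefficient of `vol`. -/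
def S_BASE : Prop := ∀ (P : Type) [CommRing P] (m : ℕ) (x q : Fin m → P), (∀ i, x i ∈ Ideal.span (Set.range q)) →
  ∃ θ D, Lifts x q θ 1 D ∧ ∀ i, D * q i ∈ Ideal.span (Set.range x)

end Pool.Agent.L7h93.GP
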