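import Mathlib
import Pool.Agent.L7h93.GP.Inj
import Pool.Agent.L7h93.GP.Kos

/-!
# The assembly
-/

set_option autoImplicit false

namespace Pool.Agent.L7h93.GP

open IsLocalRing

/-- A `K`-linear form on the local cohomology module `H^n_𝔪(P)`, the direct limit of the modules `P / (x_1^N, …, x_n^N)` with the
multiplications by `x_1 ⋯ x_n` as transition maps; `res N a` is its value at the class of `a / (x_1 ⋯ x_n)^N`. -/
structure LocForm (K : Type) {P : Type} [Field K] [CommRing P] [Algebra K P] {n : ℕ} (x : Fin n → P) where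
  res : ℕ → P →ₗ[K] K
  vanish : ∀ (N : ℕ) (a : P), a ∈ Ideal.span (Set.range fun i => x i ^ N) → res N a = 0
  compat : ∀ (N : ℕ) (a : P), res (N + 1) ((∏ i, x i) * a) = res N a

/-- the `P`-module `I² / I J` -/
abbrev M2 {P : Type} [CommRing P] (I J : Ideal P) : Type := ↥(I ^ 2) ⧸ (I * J).submoduleOf (I ^ 2)

/-- the class of `u ∈ I²` in `I² / I J` -/
def cls {P : Type} [CommRing P] (I J : Ideal P) (u : P) (hu : u ∈ I ^ 2) : M2 I J := Submodule.Quotient.mk ⟨u, hu⟩

theorem cls_eq_zero {P : Type} [CommRing P] (I J : Ideal P) (u : P) (hu : u ∈ I ^ 2) :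
    cls I J u hu = 0 ↔ u ∈ I * J := by
  unfold cls
  rw [Submodule.Quotient.mk_eq_zero]
  rfl

section Koszul

variable {P : Type} [CommRing P] {m : ℕ}

theorem Lifts.comp {q1 q2 q3 : Fin m → P} {θ ψ : EA P m →ₗ[P] EA P m} {a b c e : P} (h1 : Lifts q1 q2 θ a c)
    (h2 : Lifts q2 q3 ψ b e) : Lifts q1 q3 (ψ.comp θ) (a * b) (c * e) where
  deg k η hη := h2.deg k _ (h1.deg k η hη)
  comm η := by rw [LinearMap.comp_apply, LinearMap.comp_apply, h2.comm, h1.comm]
  bot := by rw [LinearMap.comp_apply, h1.bot, map_smul, h2.bot, smul_smul]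
  top := by rw [LinearMap.comp_apply, h1.top, map_smul, h2.top, smul_smul]

end Koszul

theorem LocForm.iter {K P : Type} [Field K] [CommRing P] [Algebra K P] {n : ℕ} {x : Fin n → P} (l : LocForm K x)
    (N k : ℕ) (a : P) : l.res (N + k) (a * ∏ i, x i ^ k) = l.res N a := by
  induction k with
  | zero => simp
  | succ k ih =>
    rw [← ih, ← l.compat (N + k), ← add_assoc]
    congr 1
    rw [Finset.prod_pow, Finset.prod_pow, pow_succ]
    ring

/-- socle elements -/
theorem exists_socle' {P : Type} [CommRing P] [IsLocalRing P] (Q : Ideal P) (k : ℕ) (x : P)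
    (hk : ∀ r ∈ maximalIdeal P ^ k, r * x ∈ Q) (hx : x ∉ Q) :
    ∃ r, r * x ∉ Q ∧ ∀ w ∈ maximalIdeal P, w * (r * x) ∈ Q := by
  classical
  have hex : ∃ j, ∀ r ∈ maximalIdeal P ^ j, r * x ∈ Q := ⟨k, hk⟩
  have h1 := Nat.find_spec hex
  have h2 : Nat.find hex ≠ 0 := by
    intro h0
    rw [h0] at h1
    exact hx (by simpa using h1 1 (by simp))
  have h3 := Nat.find_min hex (m := Nat.find hex - 1) (by omega)
  push Not at h3
  obtain ⟨r, hr, hrx⟩ := h3
  refine ⟨r, hrx, fun w hw => ?_⟩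
  rw [← mul_assoc]
  refine h1 _ ?_
  have : maximalIdeal P ^ Nat.find hex = maximalIdeal P * maximalIdeal P ^ (Nat.find hex - 1) := by
    rw [← pow_succ']; congr 1; omega
  rw [this]
  exact Ideal.mul_mem_mul hw hr

section

variable {K P : Type} [Field K] [CommRing P] [IsLocalRing P] [IsNoetherianRing P] [Algebra K P] {n : ℕ}
  {f g : Fin (n + 1) → P} {s : P}

/-- **(ii)** -/
theorem Setup.socle (h : Setup f g s) (hK : ∀ a : P, ∃ c : K, a - algebraMap K P c ∈ maximalIdeal P)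
    (hsoc : SimpleSoc (JC g ⊔ Ideal.span {s})) (hne : sat (JJ f) ≠ JJ f) :
    Module.finrank K (Submodule.torsionBySet P (M2 (sat (JJ f)) (JJ f)) (maximalIdeal P : Set P)) = 1 := by
  obtain ⟨u, hu, hu2⟩ := h.nonvanish hK hsoc hne
  obtain ⟨N, hN⟩ := sat_pow (JJ f)
  have hN2 : ∀ r ∈ maximalIdeal P ^ N, r * u ∈ sat (JJ f) * JJ f := by
    intro r hr
    rw [pow_two] at hu
    refine Submodule.mul_induction_on hu (fun x hx y hy => ?_) (fun x y hx hy => ?_)
    · rw [← mul_assoc, mul_comm r x, mul_assoc]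
      exact Ideal.mul_mem_mul hx (hN r hr y hy)
    · rw [mul_add]
      exact Ideal.add_mem _ hx hy
  obtain ⟨r, hr, hr2⟩ := exists_socle' _ N u hN2 hu2
  obtain ⟨u', hu'⟩ : ∃ u', u' = r * u := ⟨_, rfl⟩
  rw [← hu'] at hr hr2
  have hu'2 : u' ∈ sat (JJ f) ^ 2 := by rw [hu']; exact Ideal.mul_mem_left _ _ hu
  have hmem : ∀ (w : P) (hw : w ∈ sat (JJ f) ^ 2), cls (sat (JJ f)) (JJ f) w hw ∈
      Submodule.torsionBySet P (M2 (sat (JJ f)) (JJ f)) (maximalIdeal P : Set P) ↔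
      ∀ b ∈ maximalIdeal P, b * w ∈ sat (JJ f) * JJ f := by
    intro w hw
    rw [Submodule.mem_torsionBySet_iff]
    constructor
    · intro h1 b hb
      have h2 := h1 ⟨b, hb⟩
      have h3 : cls (sat (JJ f)) (JJ f) (b * w) (Ideal.mul_mem_left _ _ hw) = 0 := h2
      exact (cls_eq_zero _ _ _ _).1 h3
    · intro h1 b
      have h3 : cls (sat (JJ f)) (JJ f) (b * w) (Ideal.mul_mem_left _ _ hw) = 0 :=
        (cls_eq_zero _ _ _ _).2 (h1 b b.2)
      exact h3
  rw [finrank_eq_one_iff_of_nonzero' (⟨cls _ _ u' hu'2, (hmem u' hu'2).2 hr2⟩ :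
    Submodule.torsionBySet P (M2 (sat (JJ f)) (JJ f)) (maximalIdeal P : Set P))]
  · rintro ⟨v, hv⟩
    obtain ⟨⟨w, hw⟩, rfl⟩ := Submodule.Quotient.mk_surjective _ v
    have hw2 := (hmem w hw).1 hv
    obtain ⟨i1, hi1, hi1'⟩ := h.exists_rel u' hu'2
    obtain ⟨i2, hi2, hi2'⟩ := h.exists_rel w hw
    have hsocQ : ∀ (w i : P), w ∈ sat (JJ f) ^ 2 → i ∈ sat (JJ f) → s * w - g (Fin.last n) * i ∈ JC g →
        (∀ b ∈ maximalIdeal P, b * w ∈ sat (JJ f) * JJ f) →
        ∀ b ∈ maximalIdeal P, b * i ∈ JC g ⊔ Ideal.span {s} := by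
      intro w i hw hi h1 h2 b hb
      refine (h.ker_Phi (b * w) (b * i) (Ideal.mul_mem_left _ _ hw) (Ideal.mul_mem_left _ _ hi) ?_).2 (h2 b hb)
      have e : s * (b * w) - g (Fin.last n) * (b * i) = b * (s * w - g (Fin.last n) * i) := by ring
      rw [e]
      exact Ideal.mul_mem_left _ _ h1
    obtain ⟨r', hr'⟩ := hsoc i1 i2 (hsocQ u' i1 hu'2 hi1 hi1' hr2) (hsocQ w i2 hw hi2 hi2' hw2) (by
      intro h1
      exact hr ((h.ker_Phi u' i1 hu'2 hi1 hi1').1 h1))
    have h3 : w - r' * u' ∈ sat (JJ f) * JJ f := by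
      refine (h.ker_Phi (w - r' * u') (i2 - r' * i1) (Ideal.sub_mem _ hw (Ideal.mul_mem_left _ _ hu'2))
        (Ideal.sub_mem _ hi2 (Ideal.mul_mem_left _ _ hi1)) ?_).1 hr'
      have e : s * (w - r' * u') - g (Fin.last n) * (i2 - r' * i1) =
          (s * w - g (Fin.last n) * i2) - r' * (s * u' - g (Fin.last n) * i1) := by ring
      rw [e]
      exact Ideal.sub_mem _ hi2' (Ideal.mul_mem_left _ _ hi1')
    obtain ⟨c, hc⟩ := hK r'
    refine ⟨c, Subtype.ext ?_⟩
    have h4 : w - algebraMap K P c * u' ∈ sat (JJ f) * JJ f := by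
      have e : w - algebraMap K P c * u' = (w - r' * u') + (r' - algebraMap K P c) * u' := by ring
      rw [e]
      exact Ideal.add_mem _ h3 (hr2 _ hc)
    have h5 : cls (sat (JJ f)) (JJ f) w hw = c • cls (sat (JJ f)) (JJ f) u' hu'2 := by
      have h6 : cls (sat (JJ f)) (JJ f) (w - algebraMap K P c * u')
          (Ideal.sub_mem _ hw (Ideal.mul_mem_left _ _ hu'2)) = 0 := (cls_eq_zero _ _ _ _).2 h4
      have h7 : cls (sat (JJ f)) (JJ f) (w - algebraMap K P c * u')
          (Ideal.sub_mem _ hw (Ideal.mul_mem_left _ _ hu'2)) =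
          cls (sat (JJ f)) (JJ f) w hw - algebraMap K P c • cls (sat (JJ f)) (JJ f) u' hu'2 := rfl
      rw [h7, sub_eq_zero, algebraMap_smul] at h6
      exact h6
    exact h5.symm
  · intro h0
    have h1 : cls (sat (JJ f)) (JJ f) u' hu'2 = 0 := congrArg Subtype.val h0
    exact hr ((cls_eq_zero _ _ _ _).1 h1)

/-- **(i)** -/
theorem Setup.factor (h : Setup f g s) (hLIFT : S_LIFT) (hBASE : S_BASE) (hSYM : S_SYM) (x : Fin (n + 1) → P)
    (hx : ∀ i, x i ∈ maximalIdeal P) (l : LocForm K x) :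
    ∃ β : M2 (sat (JJ f)) (JJ f) →ₗ[K] K, ∀ a ∈ sat (JJ f),
      (∃ N θ c, Lifts (fun i => x i ^ N) f θ a c) ∧
      ∀ N θ c, Lifts (fun i => x i ^ N) f θ a c → ∀ (b : P) (hab : a * b ∈ sat (JJ f) ^ 2), b ∈ sat (JJ f) →
        l.res N (b * c) = β (cls (sat (JJ f)) (JJ f) (a * b) hab) := by
  obtain ⟨k, hk⟩ := h.prim
  let q : Fin (n + 1) → P := Fin.snoc (fun i : Fin n => g i.castSucc) s
  have hq1 : ∀ i : Fin n, q i.castSucc = g i.castSucc := fun i => by simp [q]
  have hq2 : q (Fin.last n) = s := by simp [q]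
  have hq : Ideal.span (Set.range q) = JC g ⊔ Ideal.span {s} := by
    have h1 := JJ_eq q
    rw [hq2] at h1
    have h2 : JC q = JC g := by
      unfold JC
      congr 1
      ext a
      constructor
      · rintro ⟨j, rfl⟩; exact ⟨j, (hq1 j).symm⟩
      · rintro ⟨j, rfl⟩; exact ⟨j, hq1 j⟩
    rw [h2] at h1
    exact h1
  obtain ⟨θ0, D, hθ0, hD⟩ := hBASE P (n + 1) (fun i => x i ^ k) q (fun i => by
    rw [hq]
    exact hk (Ideal.pow_mem_pow (hx i) k))
  obtain ⟨θ1, D', hθ1, -⟩ := hBASE P (n + 1) g f (fun i => by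
    have h1 : g i ∈ JJ g := Ideal.subset_span ⟨i, rfl⟩
    rw [h.gen] at h1
    exact h1)
  have hex : ∀ a ∈ sat (JJ f), ∀ t : P, s * a - g (Fin.last n) * t ∈ JC g →
      ∃ θ, Lifts (fun i => x i ^ k) f θ a (D * t * D') := by
    intro a ha t ht
    obtain ⟨θ, hθ⟩ := hLIFT P n q g a t hq1 (by rw [hq2]; exact ht)
    have h1 := (hθ0.comp hθ).comp hθ1
    rw [one_mul, mul_one] at h1
    exact ⟨_, h1⟩
  have hext : ∀ a ∈ sat (JJ f), ∃ t, s * a - g (Fin.last n) * t ∈ JC g := fun a ha =>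
    mem_JJ (h.gen ▸ h.small a ha)
  -- the functional on `P / Q`
  have hDQ : ∀ y ∈ JC g ⊔ Ideal.span {s}, D * y ∈ Ideal.span (Set.range fun i => x i ^ k) := by
    intro y hy
    rw [← hq] at hy
    refine Submodule.span_induction (p := fun y _ => D * y ∈ Ideal.span (Set.range fun i => x i ^ k)) ?_ ?_ ?_ ?_ hy
    · rintro _ ⟨i, rfl⟩
      exact hD i
    · rw [mul_zero]; exact Ideal.zero_mem _
    · intro y z _ _ h1 h2
      rw [mul_add]; exact Ideal.add_mem _ h1 h2
    · intro r y _ h1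
      rw [smul_eq_mul, mul_left_comm]
      exact Ideal.mul_mem_left _ _ h1
  let τ0 : P →ₗ[K] K := (l.res k).comp (LinearMap.mulLeft K (D * D'))
  have hτ0 : ∀ y, τ0 y = l.res k (D * D' * y) := fun y => rfl
  have hτ0Q : ((JC g ⊔ Ideal.span {s}).restrictScalars K : Submodule K P) ≤ LinearMap.ker τ0 := by
    intro y hy
    rw [LinearMap.mem_ker, hτ0]
    refine l.vanish k _ ?_
    have e : D * D' * y = D' * (D * y) := by ring
    rw [e]
    exact Ideal.mul_mem_left _ _ (hDQ y hy)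
  let τ : (P ⧸ (JC g ⊔ Ideal.span {s})) →ₗ[K] K :=
    (Submodule.liftQ ((JC g ⊔ Ideal.span {s}).restrictScalars K : Submodule K P) τ0 hτ0Q)
  have hτ : ∀ y, τ (Ideal.Quotient.mk _ y) = l.res k (D * D' * y) := fun y => rfl
  obtain ⟨Φ, hΦ⟩ := h.exists_Phi
  have hΦker : (sat (JJ f) * JJ f).submoduleOf (sat (JJ f) ^ 2) ≤ LinearMap.ker Φ := by
    rintro ⟨u, hu⟩ hu2
    obtain ⟨i, hi, hi'⟩ := h.exists_rel u hu
    rw [LinearMap.mem_ker, hΦ ⟨u, hu⟩ i hi hi', Ideal.Quotient.eq_zero_iff_mem]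
    exact (h.ker_Phi u i hu hi hi').2 hu2
  let Φ' : M2 (sat (JJ f)) (JJ f) →ₗ[P] P ⧸ (JC g ⊔ Ideal.span {s}) := Submodule.liftQ _ Φ hΦker
  have hΦ' : ∀ (u : P) (hu : u ∈ sat (JJ f) ^ 2), Φ' (cls _ _ u hu) = Φ ⟨u, hu⟩ := fun u hu => rfl
  refine ⟨τ.comp (Φ'.restrictScalars K), fun a ha => ⟨?_, ?_⟩⟩
  · obtain ⟨t, ht⟩ := hext a ha
    obtain ⟨θ, hθ⟩ := hex a ha t ht
    exact ⟨k, θ, _, hθ⟩
  · intro N θ c hθ b hab hb
    obtain ⟨t, ht⟩ := hext b hb
    obtain ⟨ψ, hψ⟩ := hex b hb t ht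
    have h1 := hSYM P (n + 1) x f N k θ ψ a b c _ hθ hψ
    have h2 : l.res (N + k) (b * c * ∏ i, x i ^ k - a * (D * t * D') * ∏ i, x i ^ N) = 0 := l.vanish _ _ h1
    rw [map_sub, l.iter, add_comm N k, l.iter, sub_eq_zero] at h2
    rw [h2, LinearMap.comp_apply, LinearMap.restrictScalars_apply, hΦ',
      hΦ ⟨a * b, hab⟩ (t * a) (Ideal.mul_mem_left _ _ ha) ?_, hτ]
    · congr 1
      ring
    · have e : s * (a * b) - g (Fin.last n) * (t * a) = a * (s * b - g (Fin.last n) * t) := by ring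
      show s * (a * b) - g (Fin.last n) * (t * a) ∈ JC g
      rw [e]
      exact Ideal.mul_mem_left _ _ ht

end

/-- the system of parameters -/
theorem exists_setup (hCM : S_CM) (hSOC : S_SOC) (hGEN : S_GEN) (P : Type) [CommRing P] [IsRegularLocalRing P] (n : ℕ)
    (hn : ringKrullDim P = (n + 1 : ℕ)) (f : Fin (n + 1) → P) (hdim : ringKrullDim (P ⧸ JJ f) = 1)
    (hI : (sat (JJ f)).IsRadical) :
    ∃ (g : Fin (n + 1) → P) (s : P), Setup f g s ∧ SimpleSoc (JC g ⊔ Ideal.span {s}) := by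
  obtain ⟨g, s, h⟩ := hGEN P n hn f hdim hI
  refine ⟨g, s, ?_⟩
  let q : Fin (n + 1) → P := Fin.snoc (fun i : Fin n => g i.castSucc) s
  have hq1 : ∀ i : Fin n, q i.castSucc = g i.castSucc := fun i => by simp [q]
  have hq2 : q (Fin.last n) = s := by simp [q]
  have hq3 : (fun j : Fin n => q j.castSucc) = fun j : Fin n => g j.castSucc := funext hq1
  have hq : Ideal.span (Set.range q) = JC g ⊔ Ideal.span {s} := by
    have h1 := JJ_eq q
    rw [hq2] at h1
    have h2 : JC q = JC g := by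
      unfold JC
      rw [hq3]
    rw [h2] at h1
    exact h1
  have hJ : JJ f ≤ maximalIdeal P := by
    refine IsLocalRing.le_maximalIdeal ?_
    intro h0
    rw [h0] at hdim
    have h1 : Subsingleton (P ⧸ (⊤ : Ideal P)) := Ideal.Quotient.subsingleton_iff.2 rfl
    rw [ringKrullDim_eq_bot_of_subsingleton] at hdim
    exact absurd hdim (by decide)
  have hqm : ∀ i, q i ∈ maximalIdeal P := by
    intro i
    induction i using Fin.lastCases with
    | last => rw [hq2]; exact h.mem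
    | cast i =>
      rw [hq1]
      exact hJ (h.gen ▸ JC_le g (Ideal.subset_span ⟨i, rfl⟩))
  have hqp : ∃ k : ℕ, maximalIdeal P ^ k ≤ Ideal.span (Set.range q) := by rw [hq]; exact h.prim
  have hreg : RegSeq q := fun i a => hCM P (n + 1) hn q hqm hqp i a
  refine ⟨{ h with reg := ?_, sreg := ?_ }, ?_⟩
  · rw [← hq3]
    exact hreg.init
  · intro a ha
    have h1 := hreg.last a (by rw [hq2, hq3]; exact ha)
    rw [hq3] at h1
    exact h1
  · intro u v hu hv huQ
    rw [← hq] at hu hv huQ ⊢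
    exact hSOC P (n + 1) hn q hqm hqp u v hu hv huQ

/-- `v` is the value of the duality pairing at the classes of `a, b ∈ I`: there are chain maps of Koszul complexes
`K(x_1^N, …, x_n^N) → K(f_1, …, f_n)` which lift the multiplication `a : P / (x_1^N, …, x_n^N) → P / (f_1, …, f_n)`, and for all of
them `v` is the value of the form `l` at the class of `b c / (x_1 ⋯ x_n)^N`, where the chain map is multiplication by `c` in the top
degree. -/
def IsValue {K P : Type} [Field K] [CommRing P] [Algebra K P] {n : ℕ} {x : Fin n → P} (l : LocForm K x) (f : Fin n → P)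
    (a b : P) (v : K) : Prop :=
  (∃ N θ c, Lifts (fun i => x i ^ N) f θ a c) ∧ ∀ N θ c, Lifts (fun i => x i ^ N) f θ a c → l.res N (b * c) = v

/-- **Main theorem** (with the statements of the project as hypotheses). -/
theorem main (hCM : S_CM) (hSOC : S_SOC) (hGEN : S_GEN) (hLIFT : S_LIFT) (hBASE : S_BASE) (hSYM : S_SYM)
    (K P : Type) [Field K] [CommRing P] [IsRegularLocalRing P] [Algebra K P]
    (n : ℕ) (hn : ringKrullDim P = n) (x : Fin n → P)
    (hx : Ideal.span (Set.range x) = maximalIdeal P) (f : Fin n → P) (J : Ideal P) (hJ : J = Ideal.span (Set.range f))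
    (hdim : ringKrullDim (P ⧸ J) = 1) (I : Ideal P) (hsat : I = sat J) (hI : I.IsRadical) :
    (∀ l : LocForm K x, ∃ β : M2 I J →ₗ[K] K, ∀ a b : P, a ∈ I → b ∈ I → ∀ hab : a * b ∈ I ^ 2,
      IsValue l f a b (β (cls I J (a * b) hab))) ∧
    (Function.Bijective (algebraMap K (ResidueField P)) → I ≠ J →
      Module.finrank K (Submodule.torsionBySet P (M2 I J) (maximalIdeal P : Set P)) = 1) := by
  subst hsat
  subst hJ
  cases n with
  | zero =>
    exfalso
    have h1 := ringKrullDim_quotient_le (Ideal.span (Set.range f))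
    rw [hdim, hn] at h1
    exact absurd h1 (by decide)
  | succ n =>
    obtain ⟨g, s, h, hs⟩ := exists_setup hCM hSOC hGEN P n hn f hdim hI
    refine ⟨fun l => ?_, fun hK hne => h.socle (fun a => ?_) hs hne⟩
    · obtain ⟨β, hβ⟩ := h.factor hLIFT hBASE hSYM x (fun i => by
        rw [← hx]
        exact Ideal.subset_span ⟨i, rfl⟩) l
      exact ⟨β, fun a b ha hb hab => ⟨(hβ a ha).1, fun N θ c hθ => (hβ a ha).2 N θ c hθ b hab hb⟩⟩
    · obtain ⟨c, hc⟩ := hK.2 (IsLocalRing.residue P a)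
      refine ⟨c, ?_⟩
      rw [← IsLocalRing.residue_eq_zero_iff, map_sub, ← hc, sub_eq_zero]
      rfl

end Pool.Agent.L7h93.GP
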