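import Mathlib
import Pool.Agent.L7h93.GP.Fin

/-!
# The pairing, with short definitions
-/

set_option autoImplicit false

namespace Pool.Agent.L7h93.GP.Pair

/-- the exterior algebra of `P^m`, the underlying module of the Koszul complexes of `m` elements of `P` -/
def Ex (P : Type) [CommRing P] (m : ℕ) : Type := ExteriorAlgebra P (Fin m → P)

noncomputable instance exRing (P : Type) [CommRing P] (m : ℕ) : Ring (Ex P m) :=
  (inferInstance : Ring (ExteriorAlgebra P (Fin m → P)))

noncomputable instance exModule (P : Type) [CommRing P] (m : ℕ) : Module P (Ex P m) :=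
  (inferInstance : Module P (ExteriorAlgebra P (Fin m → P)))

/-- the basis elements `e_i` -/
noncomputable def e (P : Type) [CommRing P] (m : ℕ) (i : Fin m) : Ex P m := ExteriorAlgebra.ι P (Pi.single i 1)

/-- the part of degree `k`, spanned by the products of `k` basis elements -/
noncomputable def gr (P : Type) [CommRing P] (m k : ℕ) : Submodule P (Ex P m) :=
  Submodule.span P (Set.range fun s : Fin k → Fin m => (List.ofFn fun j => e P m (s j)).prod)

/-- `e_1 ⋯ e_m` -/
noncomputable def top (P : Type) [CommRing P] (m : ℕ) : Ex P m := (List.ofFn (e P m)).prod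

/-- `d` is the differential of the Koszul complex `K(q_1, …, q_m)`: the antiderivation with `d e_i = q_i` -/
structure IsKoszul {P : Type} [CommRing P] {m : ℕ} (q : Fin m → P) (d : Ex P m →ₗ[P] Ex P m) : Prop where
  one : d 1 = 0
  mul : ∀ (i : Fin m) (w : Ex P m), d (e P m i * w) = q i • w - e P m i * d w

/-- `θ` is a chain map (of degree `0`) from the Koszul complex `K(q)` to the Koszul complex `K(f)` which is multiplication
by `a` in degree `0` and multiplication by `c` in the top degree `m` -/
structure ChainMap {P : Type} [CommRing P] {m : ℕ} (q f : Fin m → P) (θ : Ex P m →ₗ[P] Ex P m) (a c : P) : Prop where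
  deg : ∀ (k : ℕ) (w : Ex P m), w ∈ gr P m k → θ w ∈ gr P m k
  comm : ∃ d d' : Ex P m →ₗ[P] Ex P m, IsKoszul q d ∧ IsKoszul f d' ∧ ∀ w, d' (θ w) = θ (d w)
  bot : θ 1 = a • 1
  top : θ (top P m) = c • top P m

/-- `v` is the value of the pairing (for the `K`-linear form `l` on `H^n_𝔪(P)`) of the classes of `a` and `b`: there are chain maps
`K(x_1^N, …, x_n^N) → K(f_1, …, f_n)` which lift the multiplication `a : P / (x_1^N, …, x_n^N) → P / (f_1, …, f_n)`, and for all of
them `v` is the value of the form `l` at the class of `b c / (x_1 ⋯ x_n)^N`, where the chain map is multiplication by `c` in the top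
degree. -/
def IsValue {K P : Type} [Field K] [CommRing P] [Algebra K P] {n : ℕ} {x : Fin n → P} (l : LocForm K x) (f : Fin n → P)
    (a b : P) (v : K) : Prop :=
  (∃ N θ c, ChainMap (fun i => x i ^ N) f θ a c) ∧ ∀ N θ c, ChainMap (fun i => x i ^ N) f θ a c → l.res N (b * c) = v

section

variable {P : Type} [CommRing P] {m : ℕ}

theorem gr_aux (k : ℕ) : Submodule.span P (Set.range fun s : Fin k → Fin m =>
    (List.ofFn fun j => ExteriorAlgebra.ι P (Pi.single (s j) 1 : Fin m → P)).prod) = ⋀[P]^k (Fin m → P) := by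
  have h1 := ExteriorAlgebra.ιMulti_span_fixedDegree (R := P) (M := Fin m → P) k
  rw [← h1]
  apply le_antisymm
  · rw [Submodule.span_le]
    rintro _ ⟨s, rfl⟩
    apply Submodule.subset_span
    refine ⟨fun j => Pi.single (s j) 1, ?_⟩
    rw [ExteriorAlgebra.ιMulti_apply]
  · rw [Submodule.span_le]
    rintro _ ⟨v, rfl⟩
    have h3 : v = fun j => ∑ i : Fin m, v j i • (Pi.single i 1 : Fin m → P) := by
      funext j
      exact pi_eq_sum_univ' (v j)
    rw [h3]
    have h4 := MultilinearMap.map_sum (ExteriorAlgebra.ιMulti P k (M := Fin m → P)).toMultilinearMap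
      (fun (j : Fin k) (i : Fin m) => v j i • (Pi.single i 1 : Fin m → P))
    rw [AlternatingMap.coe_multilinearMap] at h4
    rw [h4]
    refine Submodule.sum_mem _ fun s _ => ?_
    have h5 := MultilinearMap.map_smul_univ (ExteriorAlgebra.ιMulti P k (M := Fin m → P)).toMultilinearMap
      (fun j => v j (s j)) (fun j => (Pi.single (s j) 1 : Fin m → P))
    rw [AlternatingMap.coe_multilinearMap] at h5
    rw [h5]
    refine Submodule.smul_mem _ _ (Submodule.subset_span ⟨s, ?_⟩)
    rw [ExteriorAlgebra.ιMulti_apply]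

theorem mem_gr (k : ℕ) (w : EA P m) : (show Ex P m from w) ∈ gr P m k ↔ w ∈ ⋀[P]^k (Fin m → P) := by
  rw [← gr_aux]
  rfl

theorem form_single (q : Fin m → P) (i : Fin m) : form q (Pi.single i 1) = q i := by
  unfold form
  rw [LinearMap.sum_apply, Finset.sum_eq_single i]
  · simp
  · intro j _ hj
    simp [hj]
  · intro h; exact absurd (Finset.mem_univ i) h

theorem isKoszul_kd (q : Fin m → P) : IsKoszul q (kd q : EA P m →ₗ[P] EA P m) where
  one := CliffordAlgebra.contractLeft_one (Q := (0 : QuadraticForm P (Fin m → P))) (form q)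
  mul i w := by
    have h := CliffordAlgebra.contractLeft_ι_mul (Q := (0 : QuadraticForm P (Fin m → P))) (form q) (Pi.single i 1) w
    rw [form_single] at h
    exact h

theorem IsKoszul.eq_kd {q : Fin m → P} {d : EA P m →ₗ[P] EA P m} (h : IsKoszul q d) : d = kd q := by
  apply LinearMap.ext
  intro w
  have h2 : ∀ (v : Fin m → P) (w : EA P m), d (ExteriorAlgebra.ι P v * w) = form q v • w - ExteriorAlgebra.ι P v * d w := by
    intro v w
    have h3 : v = ∑ i : Fin m, v i • (Pi.single i 1 : Fin m → P) := pi_eq_sum_univ' v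
    have h4 : ∀ i, d (ExteriorAlgebra.ι P (Pi.single i 1) * w) = q i • w - ExteriorAlgebra.ι P (Pi.single i 1) * d w :=
      fun i => h.mul i w
    conv_lhs => rw [h3]
    conv_rhs => rw [h3]
    rw [map_sum, Finset.sum_mul, map_sum, map_sum, Finset.sum_smul, Finset.sum_mul, ← Finset.sum_sub_distrib]
    refine Finset.sum_congr rfl fun i _ => ?_
    rw [map_smul, smul_mul_assoc, map_smul, h4, map_smul, form_single, smul_mul_assoc, smul_sub, smul_eq_mul, mul_smul]
  induction w using CliffordAlgebra.left_induction with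
  | algebraMap r =>
    have h1 : d 1 = 0 := h.one
    have e1 : (algebraMap P (EA P m)) r = r • 1 := Algebra.algebraMap_eq_smul_one r
    rw [e1, map_smul, map_smul, h1]
    congr 1
    exact (CliffordAlgebra.contractLeft_one (Q := (0 : QuadraticForm P (Fin m → P))) (form q)).symm
  | add x y hx hy => rw [map_add, map_add, hx, hy]
  | ι_mul x v hx =>
    have h5 := h2 v x
    have h6 := CliffordAlgebra.contractLeft_ι_mul (Q := (0 : QuadraticForm P (Fin m → P))) (form q) v x
    rw [hx] at h5
    exact h5.trans h6.symm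

theorem top_eq : (top P m : ExteriorAlgebra P (Fin m → P)) = vol P m := by
  unfold top vol
  rw [ExteriorAlgebra.ιMulti_apply]
  rfl

theorem chainMap_iff {q f : Fin m → P} {θ : EA P m →ₗ[P] EA P m} {a c : P} : ChainMap q f θ a c ↔ Lifts q f θ a c := by
  constructor
  · intro h
    obtain ⟨d, d', h1, h2, h3⟩ := h.comm
    have e1 : d = kd q := IsKoszul.eq_kd h1
    have e2 : d' = kd f := IsKoszul.eq_kd h2
    refine ⟨?_, ?_, h.bot, ?_⟩
    · intro k η hη
      exact (mem_gr k _).1 (h.deg k η ((mem_gr k η).2 hη))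
    · intro η
      rw [← e1, ← e2]
      exact h3 η
    · have := h.top
      rw [← top_eq]
      exact this
  · intro h
    refine ⟨?_, ⟨kd q, kd f, isKoszul_kd q, isKoszul_kd f, h.comm⟩, h.bot, ?_⟩
    · intro k w hw
      exact (mem_gr k _).2 (h.deg k w ((mem_gr k w).1 hw))
    · have := h.top
      rw [← top_eq] at this
      exact this

theorem isValue_iff {K : Type} [Field K] [Algebra K P] {x : Fin m → P} (l : LocForm K x) (f : Fin m → P)
    (a b : P) (v : K) : IsValue l f a b v ↔ GP.IsValue l f a b v := by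
  unfold IsValue GP.IsValue
  constructor
  · rintro ⟨⟨N, θ, c, h1⟩, h2⟩
    exact ⟨⟨N, θ, c, chainMap_iff.1 h1⟩, fun N θ c h => h2 N θ c (chainMap_iff.2 h)⟩
  · rintro ⟨⟨N, θ, c, h1⟩, h2⟩
    exact ⟨⟨N, θ, c, chainMap_iff.2 h1⟩, fun N θ c h => h2 N θ c (chainMap_iff.1 h)⟩

end

end Pool.Agent.L7h93.GP.Pair
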